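import Pool.Agent.W290.LG.Stm2

/-!
# LG-J: from a representation to coefficients
-/

set_option autoImplicit false

namespace Pool.Agent.W753.LG

open Pool.Agent.W290.LG Pool.Agent.H881R2.Mat

/-- extension by zero -/
noncomputable def ww {n m : ℕ} (v : Fin n → (Fin m → ℚ)) (j : ℕ) : Fin m → ℚ :=
  if h : j < n then v ⟨j, h⟩ else 0

lemma ww_val {n m : ℕ} (v : Fin n → (Fin m → ℚ)) : ww v ∘ Fin.val = v := by
  funext i
  simp [ww]

/-- the hypothesis in terms of natural numbers -/
lemma key {n m : ℕ} (L : List (List ℕ)) (hL : ∀ l ∈ L, ∀ i ∈ l, i < n)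
    (v : Fin n → (Fin m → ℚ))
    (hv : ∀ B : Finset (Fin n), (Listed L B ↔
      (LinearIndependent ℚ (fun i : B => v i) ∧
        Submodule.span ℚ (v '' (B : Set (Fin n))) = Submodule.span ℚ (Set.range v))))
    (t : Set ℕ) (ht : ∀ i ∈ t, i < n) :
    (∃ l ∈ L, ∀ i, i ∈ t ↔ i ∈ l) ↔
      (LinearIndepOn ℚ (ww v) t ∧ ∀ j, ww v j ∈ Submodule.span ℚ (ww v '' t)) := by
  classical
  let B : Finset (Fin n) := Finset.univ.filter (fun i => (i : ℕ) ∈ t)
  have hB : Fin.val '' (B : Set (Fin n)) = t := by
    ext i
    constructor
    · rintro ⟨x, hx, rfl⟩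
      have hx' : x ∈ B := hx
      simpa [B] using hx'
    · intro hi
      exact ⟨⟨i, ht i hi⟩, by simpa [B] using hi, rfl⟩
  have h1 : (∃ l ∈ L, ∀ i, i ∈ t ↔ i ∈ l) ↔ Listed L B := by
    constructor
    · rintro ⟨l, hl, h⟩
      refine ⟨l, hl, fun i => ?_⟩
      rw [← h]
      simp [B]
    · rintro ⟨l, hl, h⟩
      refine ⟨l, hl, fun i => ?_⟩
      constructor
      · intro hi
        rw [← h ⟨i, ht i hi⟩]
        simpa [B] using hi
      · intro hi
        have h2 := (h ⟨i, hL l hl i hi⟩).2 hi
        simpa [B] using h2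
  rw [h1, hv B]
  have h3 : Submodule.span ℚ (v '' (B : Set (Fin n))) = Submodule.span ℚ (ww v '' t) := by
    rw [← hB, ← Set.image_comp, ww_val]
  have h4 : LinearIndependent ℚ (fun i : B => v i) ↔ LinearIndepOn ℚ (ww v) t := by
    constructor
    · intro h
      rw [← hB]
      apply LinearIndepOn.image_of_comp
      rw [ww_val]
      exact h
    · intro h
      rw [← hB] at h
      have h5 := LinearIndepOn.comp_of_image h Fin.val_injective.injOn
      rw [ww_val] at h5
      exact h5
  rw [h4, h3]
  refine and_congr_right fun _ => ?_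
  constructor
  · intro h j
    by_cases hj : j < n
    · rw [h]
      apply Submodule.subset_span
      exact ⟨⟨j, hj⟩, by simp [ww, hj]⟩
    · simp [ww, hj]
  · intro h
    apply le_antisymm
    · rw [← h3]
      exact Submodule.span_mono (Set.image_subset_range _ _)
    · rw [Submodule.span_le]
      rintro _ ⟨x, rfl⟩
      have h6 := h x.val
      have h7 : ww v x.val = v x := by simp [ww]
      rw [h7] at h6
      exact h6

lemma exch_iff (L : List (List ℕ)) (l : List ℕ) (j k : ℕ) (hj : j ∉ l) (hk : k ∈ l) :
    exch L l j k = true ↔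
      ∃ l' ∈ L, ∀ i, i ∈ insert j ({x : ℕ | x ∈ l} \ {k}) ↔ i ∈ l' := by
  have hjk : k ≠ j := fun h => hj (h ▸ hk)
  rw [exch, List.any_eq_true]
  refine exists_congr fun l' => and_congr_right fun _ => ?_
  rw [Bool.and_eq_true, Bool.and_eq_true, decide_eq_true_iff, List.all_eq_true, List.all_eq_true]
  simp only [Bool.or_eq_true, Bool.and_eq_true, decide_eq_true_iff, Bool.not_eq_true',
    decide_eq_false_iff_not, Set.mem_insert_iff, Set.mem_sdiff, Set.mem_ofPred_eq,
    Set.mem_singleton_iff]
  constructor
  · rintro ⟨h1, h2, h3⟩ i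
    constructor
    · rintro (rfl | ⟨h4, h5⟩)
      · exact h1
      · exact (h3 i h4).resolve_left h5
    · exact h2 i
  · intro h
    refine ⟨(h j).1 (Or.inl rfl), fun x hx => (h x).2 hx, fun x hx => ?_⟩
    by_cases hxk : x = k
    · exact Or.inl hxk
    · exact Or.inr ((h x).1 (Or.inr ⟨hx, hxk⟩))

theorem t_J : Pool.Agent.W290.LG.S_J := by
  classical
  rintro ⟨n, L⟩ hval ⟨m, v, hv⟩
  have hL : ∀ l ∈ L, ∀ i ∈ l, i < n := fun l hl => (hval l hl).2
  have hnd : ∀ l ∈ L, l.Nodup := fun l hl => (hval l hl).1.imp (fun h => h.ne)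
  have hkey := key L hL v hv
  -- every listed set is a basis
  have hbas : ∀ l ∈ L, LinearIndepOn ℚ (ww v) (l.toFinset : Set ℕ) ∧
      ∀ j, ww v j ∈ Submodule.span ℚ (ww v '' (l.toFinset : Set ℕ)) := by
    intro l hl
    refine (hkey _ ?_).1 ⟨l, hl, ?_⟩
    · intro i hi
      exact hL l hl i (by simpa using hi)
    · intro i
      simp
  have huniq : ∀ l ∈ L, ∀ f g : ℕ → ℚ,
      ∑ i ∈ l.toFinset, f i • ww v i = ∑ i ∈ l.toFinset, g i • ww v i → ∀ i ∈ l, f i = g i := by
    intro l hl f g hfg i hi
    exact linearIndepOn_finset_iffₛ.1 (hbas l hl).1 f g hfg i (List.mem_toFinset.2 hi)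
  have hex : ∀ b j : ℕ, ∃ a : ℕ → ℚ, ∀ l, L[b]? = some l → (∀ k, k ∉ l → a k = 0) ∧
      ww v j = ∑ i ∈ l.toFinset, a i • ww v i := by
    intro b j
    cases hb : L[b]? with
    | none => exact ⟨fun _ => 0, fun l hl => by simp at hl⟩
    | some l =>
      have hl : l ∈ L := List.mem_of_getElem? hb
      obtain ⟨a, ha⟩ := (Submodule.mem_span_image_finset_iff_exists_fun' ℚ).1 ((hbas l hl).2 j)
      refine ⟨fun k => if k ∈ l then a k else 0, fun l' hl' => ?_⟩
      have hll : l = l' := by simpa using hl'
      subst hll
      refine ⟨fun k hk => by simp [hk], ?_⟩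
      rw [← ha]
      refine Finset.sum_congr rfl fun i hi => ?_
      have hi' : i ∈ l := List.mem_toFinset.1 hi
      show a i • ww v i = (if i ∈ l then a i else 0) • ww v i
      rw [if_pos hi']
  choose c hc using hex
  constructor
  · -- a basis exists
    obtain ⟨B, -, -, hBsp, hBi⟩ := exists_linearIndepOn_extension
      (K := ℚ) (v := v) (s := (∅ : Set (Fin n))) (t := Set.univ) (linearIndepOn_empty ℚ v)
      (Set.empty_subset _)
    have h1 : Listed L B.toFinset := by
      rw [hv]
      constructor
      · have h2 : LinearIndepOn ℚ v (B.toFinset : Set (Fin n)) := by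
          rw [Set.coe_toFinset]
          exact hBi
        exact h2
      · rw [Set.coe_toFinset]
        apply le_antisymm
        · exact Submodule.span_mono (Set.image_subset_range _ _)
        · rw [Submodule.span_le, ← Set.image_univ]
          exact hBsp
    obtain ⟨l, hl, -⟩ := h1
    intro h
    have h' : L = [] := h
    rw [h'] at hl
    simp at hl
  · refine ⟨c, ?_, ?_, ?_, ?_⟩
    · intro b l hb j _ k _ hk
      exact (hc b j l hb).1 k hk
    · intro b l hb j hj k hk
      have hl : l ∈ L := List.mem_of_getElem? hb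
      refine huniq l hl (c b j) (fun k => if j = k then 1 else 0) ?_ k hk
      rw [← (hc b j l hb).2]
      simp [hj]
    · intro b l hb b' l' hb' j _ m' _
      have hl : l ∈ L := List.mem_of_getElem? hb
      have hl' : l' ∈ L := List.mem_of_getElem? hb'
      rw [← List.sum_toFinset _ (hnd l hl)]
      by_cases hm : m' ∈ l'
      · refine huniq l' hl' (fun m => ∑ k ∈ l.toFinset, c b j k * c b' k m) (c b' j) ?_ m' hm
        rw [← (hc b' j l' hb').2]
        simp only [Finset.sum_smul]
        rw [Finset.sum_comm, (hc b j l hb).2]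
        refine Finset.sum_congr rfl fun k _ => ?_
        simp only [mul_smul]
        rw [← Finset.smul_sum, ← (hc b' k l' hb').2]
      · rw [(hc b' j l' hb').1 m' hm]
        refine Finset.sum_eq_zero fun k _ => ?_
        rw [(hc b' k l' hb').1 m' hm, mul_zero]
    · intro b l hb j hjL hj k hk
      have hl : l ∈ L := List.mem_of_getElem? hb
      have hjn : j < n := by
        obtain ⟨l1, h1, h2⟩ := List.mem_flatten.1 hjL
        exact hL l1 h1 j h2
      set s0 : Set ℕ := {x : ℕ | x ∈ l} \ {k} with hs0
      have hs0' : s0 = ((l.toFinset.erase k : Finset ℕ) : Set ℕ) := by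
        ext i
        simp [hs0, and_comm]
      have hjs : j ∉ s0 := fun h => hj h.1
      -- the coefficient vanishes if and only if the vector lies in the span of the others
      have hP : c b j k = 0 ↔ ww v j ∈ Submodule.span ℚ (ww v '' s0) := by
        rw [hs0', Submodule.mem_span_image_finset_iff_exists_fun']
        constructor
        · intro h0
          refine ⟨c b j, ?_⟩
          rw [(hc b j l hb).2, ← Finset.sum_erase_add l.toFinset _ (List.mem_toFinset.2 hk), h0,
            zero_smul, add_zero]
        · rintro ⟨a, ha⟩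
          have h5 := huniq l hl (c b j) (fun i => if i = k then 0 else a i) ?_ k hk
          · simpa using h5
          · rw [← (hc b j l hb).2, ← ha,
              ← Finset.sum_erase_add l.toFinset _ (List.mem_toFinset.2 hk), if_pos rfl, zero_smul,
              add_zero]
            refine Finset.sum_congr rfl fun i hi => ?_
            rw [if_neg (Finset.ne_of_mem_erase hi)]
      have hsub : s0 ⊆ (l.toFinset : Set ℕ) := by
        intro i hi
        simpa using hi.1
      have hins : insert k s0 = (l.toFinset : Set ℕ) := by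
        ext i
        simp only [hs0, Set.mem_insert_iff, Set.mem_sdiff, Set.mem_ofPred_eq, Set.mem_singleton_iff,
          Finset.mem_coe, List.mem_toFinset]
        constructor
        · rintro (rfl | h)
          · exact hk
          · exact h.1
        · intro h
          by_cases hik : i = k
          · exact Or.inl hik
          · exact Or.inr ⟨h, hik⟩
      rw [ne_eq, hP, exch_iff L l j k hj hk, hkey (insert j s0)]
      · rw [linearIndepOn_insert hjs]
        constructor
        · intro hnot
          refine ⟨⟨(hbas l hl).1.mono hsub, hnot⟩, ?_⟩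
          have h6 : ww v j ∈ Submodule.span ℚ (insert (ww v k) (ww v '' s0)) := by
            rw [← Set.image_insert_eq, hins]
            exact (hbas l hl).2 j
          have h7 := mem_span_insert_exchange h6 hnot
          have h8 : Submodule.span ℚ (ww v '' (l.toFinset : Set ℕ)) ≤
              Submodule.span ℚ (ww v '' (insert j s0)) := by
            rw [← hins, Set.image_insert_eq, Set.image_insert_eq, Submodule.span_le,
              Set.insert_subset_iff]
            refine ⟨h7, ?_⟩
            intro x hx
            exact Submodule.subset_span (Set.mem_insert_of_mem _ hx)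
          intro i
          exact h8 ((hbas l hl).2 i)
        · intro h
          exact h.1.2
      · rintro i (rfl | hi)
        · exact hjn
        · exact hL l hl i hi.1

end Pool.Agent.W753.LG
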